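import Mathlib
import Pool.Agent.H82.ConfA

set_option autoImplicit false

namespace Pool.Agent.Results.MP_53fb6e_gt.AcyclicNo

open Set

/-- `f` maps `X` onto `Y`, and each component of the preimage in `X` of a subcontinuum of `Y`
is mapped onto that subcontinuum. -/
def Confluent {A B : Type} [TopologicalSpace A] [TopologicalSpace B] (f : A → B) (X : Set A)
    (Y : Set B) : Prop :=
  f '' X = Y ∧ ∀ K ⊆ Y, IsCompact K → IsConnected K → ∀ x ∈ X, f x ∈ K →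
    f '' connectedComponentIn (X ∩ f ⁻¹' K) x = K

open Pool.Agent.H82.ConfA in
theorem result : ∃ (X Y : Set (ℂ × ℝ)) (f : ℂ × ℝ → ℂ × ℝ),
    IsCompact X ∧ IsConnected X ∧ IsCompact Y ∧ IsConnected Y ∧ Continuous f ∧
    (∃ Z : ℕ → Set (ℂ × ℝ), Antitone Z ∧ (∀ n, IsCompact (Z n) ∧ ContractibleSpace (Z n)) ∧
      X = ⋂ n, Z n) ∧
    Confluent f X Y ∧ ¬ Confluent (Prod.map f f) (X ×ˢ X) (Y ×ˢ Y) := by
  refine ⟨S 1, S 2, f, S_compact 1, S_conn one_pos, S_compact 2, S_conn two_pos, f_cont,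
    ⟨fun n => Z 1 (1 / (n + 1)), fun m n h => Z_mono 1 (Nat.one_div_le_one_div h),
      fun n => ⟨Z_compact 1 Nat.one_div_pos_of_nat, Z_contr 1 Nat.one_div_pos_of_nat
        (by simpa using Nat.one_div_le_one_div (α := ℝ) (Nat.zero_le n))⟩, S_eq 1⟩,
    ⟨f_img, fun K h1 h2 h3 x hx h => conf h1 h2.isClosed h3.2 hx h⟩, fun h => ?_⟩
  obtain ⟨L, h1, h2, h3, x, h4, h5, h6⟩ := not_conf
  exact h6 (h.2 L h1 h2 h3 x h4 h5)

end Pool.Agent.Results.MP_53fb6e_gt.AcyclicNo
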